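import Mathlib

/-!
# Project WS (MP_90c2d5_nt, Wall-Sun-Sun primes; owner helper69): real quadratic fields ordered by the
size of the fundamental unit

A Wall-Sun-Sun prime of the real quadratic field `K` with fundamental unit `ε` is a prime `p` with
`Tr(ε^p) ≡ Tr(ε) (mod p²)` (for `K = ℚ(√5)`: `L_p ≡ 1 (mod p²)`). Theorem: among the fields with
`ε ≤ x` all but `O(x / log x)` have a Wall-Sun-Sun prime, for almost all of them the number of
Wall-Sun-Sun primes `p ≤ x^(1/5)` is `(1 + o(1)) log log x`, and the quotients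
`(Tr(ε^p) - Tr(ε)) / p mod p` are jointly equidistributed, also in every congruence class of `Tr(ε)`.

Notation of the docstrings: `V_m = lucV t n m`; for `e² - t e + n = 0`, `n = ±1`, `e' = n/e`,
`V_m = e^m + e'^m`.
-/

set_option autoImplicit false

namespace Pool.Agent.Helper69.WS

open Filter Topology

/-- the Lucas sequence `V_0 = 2`, `V_1 = t`, `V_(m+2) = t V_(m+1) - n V_m` -/
def lucV (t n : ℤ) : ℕ → ℤ
  | 0 => 2
  | 1 => t
  | (m + 2) => t * lucV t n (m + 1) - n * lucV t n m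

/-- the units `x > 1` of `ℚ(√d) ⊂ ℝ`: `x` and `x⁻¹` are algebraic integers -/
def Un (d : ℕ) : Set ℝ :=
  {x : ℝ | 1 < x ∧ (∃ a b : ℚ, x = a + b * Real.sqrt d) ∧ IsIntegral ℤ x ∧ IsIntegral ℤ x⁻¹}

/-- `e` is the fundamental unit of `ℚ(√d)` -/
def IsFund (d : ℕ) (e : ℝ) : Prop := IsLeast (Un d) e

/-- the fundamental unit of `ℚ(√d)` has trace `t` and norm `n = ±1` -/
def UTN (d : ℕ) (t n : ℤ) : Prop :=
  (n = 1 ∨ n = -1) ∧ ∃ e : ℝ, IsFund d e ∧ e ^ 2 - t * e + n = 0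

/-- the real quadratic fields `ℚ(√d)`, `d > 1` squarefree, with fundamental unit at most `x` -/
def Fam (x : ℝ) : Set ℕ := {d | 1 < d ∧ Squarefree d ∧ ∃ e ≤ x, IsFund d e}

/-- `p` is a Wall-Sun-Sun prime of `ℚ(√d)`: `Tr(ε^p) ≡ Tr(ε) (mod p²)` -/
def WSS (d p : ℕ) : Prop :=
  p.Prime ∧ ∃ t n : ℤ, UTN d t n ∧ lucV t n p ≡ t [ZMOD (p : ℤ) ^ 2]

/-- the number of `t` in `[1, X]` with the property `P` -/
noncomputable def cnt (X : ℕ) (P : ℤ → Prop) : ℕ := {t : ℤ | 1 ≤ t ∧ t ≤ X ∧ P t}.ncard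

/-- the number of primes `p ≤ y` with `V_p ≡ t (mod p²)` -/
noncomputable def om (y : ℝ) (t n : ℤ) : ℕ :=
  {p : ℕ | p.Prime ∧ (p : ℝ) ≤ y ∧ lucV t n p ≡ t [ZMOD (p : ℤ) ^ 2]}.ncard

/-- ALG (no hypotheses, about 300 lines). Units of real quadratic fields and traces.

`U_d = Un d`, for `d > 1` squarefree (`√d` irrational). Conjugation:
`x = a + b√d` has the conjugate `a - b√d`.
(A) `x ∈ U_d` implies `t := 2a ∈ ℤ`, `n := a² - d b² ∈ {1,-1}`, `x² - t x + n = 0`, `1 ≤ t`, and if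
`n = 1` then `3 ≤ t`: `x` integral, so `a - b√d` is integral too (same monic integral polynomial: it is a
root of the image of the polynomial under the automorphism; or: minpoly of `x` over `ℚ` has integer
coefficients, `minpoly.isIntegrallyClosed_eq_field_fractions'`; if `b ≠ 0` it is `X² - 2aX + (a² - d b²)`;
if `b = 0`, `x = a` is an integer with integral inverse, so `x = ±1`, impossible). So `2a ∈ ℤ`,
`n ∈ ℤ`; the same for `x⁻¹ = (a - b√d)/n`, so `1/n ∈ ℤ`, `n = ±1`. `x' = n/x`, `t = x + n/x > 0` as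
`x > 1`; for `n = 1`: `t = x + 1/x > 2`.
(B) conversely if `t ≥ 1`, `n = -1` or `t ≥ 3`, `n = 1` then `D = t² - 4n > 0` is not a square
(`(t-1)² < t² - 4 < t²` for `t ≥ 3`; `t² < t² + 4 < (t+1)²` for `t ≥ 2`, and `5`; parity), write
`D = d u²`, `d > 1` squarefree (`Nat.sq_mul_squarefree`); `x = (t + √D)/2 > 1` is in `U_d` (roots of monic
integral polynomials `X² - tX + n` and, for `x⁻¹ = n (t - √D)/2 .. `, `X² - n t X + n`), and `x² - t x + n = 0`.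
(C) `U_d` is closed under multiplication, and under division if the quotient is `> 1` (integral elements
form a ring). By (A) the elements of `U_d` which are `≤ B` have `1 ≤ t ≤ B + 1`, `x` is the larger root of
`X² - tX + n` (the product of the roots is `±1`, `x > 1`), so they are finitely many: a nonempty `U_d` has a
least element `η`. If `x ∈ U_d`, take `j` maximal with `η^j ≤ x` (`j ≥ 1`); if `η^j < x` then
`x/η^j ∈ U_d` is `< η`, contradiction. So `x = η^j`.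
The claims: (1) from (A) (uniqueness of `(t,n)`: `e` is irrational, so `t`, `n` are determined: if
`e² - te + n = 0 = e² - t'e + n'` then `(t - t') e = n - n'`). (2) from (B), (C), (A). (3): if `e` is the
least element of `U_d` and of `U_d'` then `e = a + b√d = a' + b'√d'`, `b, b' ≠ 0`: by (A) `a = a' = t/2`,
so `b²d = b'²d'`, `d d'` is a rational square, so `d = d'` (both squarefree). -/
def StALG : Prop :=
  (∀ (d : ℕ) (e : ℝ), 1 < d → Squarefree d → e ∈ Un d → ∃ t n : ℤ,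
    (n = 1 ∧ 3 ≤ t ∨ n = -1 ∧ 1 ≤ t) ∧ e ^ 2 - t * e + n = 0 ∧
    ∀ t' n' : ℤ, e ^ 2 - t' * e + n' = 0 → t' = t ∧ n' = n) ∧
  (∀ (t n : ℤ) (x : ℝ), (n = 1 ∧ 3 ≤ t ∨ n = -1 ∧ 1 ≤ t) → 1 < x → x ^ 2 - t * x + n = 0 →
    ∃ (d : ℕ) (e : ℝ) (j : ℕ), 1 < d ∧ Squarefree d ∧ IsFund d e ∧ 1 ≤ j ∧ x = e ^ j) ∧
  (∀ (d d' : ℕ) (e : ℝ), 1 < d → Squarefree d → 1 < d' → Squarefree d' → IsFund d e →
    IsFund d' e → d = d')

/-- TRF (hALG : StALG), about 250 lines. Counting fields is counting traces.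

`x(t,n) = (t + √(t² - 4n))/2`, for `n = -1`, `t ≥ 1` or `n = 1`, `t ≥ 3` (admissible pairs): the root `> 1`
of `X² - tX + n`; `t = x + n/x`, so `|x(t,n) - t| < 1`, and `x(t,n)` determines `(t,n)` (ALG (1), or
directly: `x` is irrational).
By ALG the set on the left corresponds bijectively (`d ↦ (t,n)`) to the set `G` of admissible pairs with
`P t n`, `x(t,n) ≤ x` and `x(t,n)` the fundamental unit of some `ℚ(√d)`. Compare with
`H = {(t,n) : n = ±1, 1 ≤ t ≤ ⌊x⌋, P t n}`: `x(t,-1) = t + 1/x(t,-1) > t` and `x(t,1) < t`, so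
`G \ H` has at most 1 element (`n = 1`, `t = ⌊x⌋ + 1`: `t - 1 < x(t,1) ≤ x`), and `H \ G` consists of:
`(1,1), (2,1)`, pairs with `x(t,n) > x` (`n = -1`, `t ≤ x < t + 1`, at most 1; `n = 1`: `x(t,1) < t ≤ x`, none),
and admissible pairs with `x(t,n) = e^j ≤ x`, `j ≥ 2`, `e` a fundamental unit. The last ones:
`e ≥ (1+√5)/2` (`e = x(t',n')`, `e ≥ x(1,-1)` or `e ≥ x(3,1)`), `e^j ≤ x` gives `j ≤ J := log x/log φ` and
`e ≤ x^(1/j)`, so `t' ≤ x^(1/j) + 1`: for each `j` at most `2(x^(1/j) + 1)` values of `e`. Total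
`≤ 2(√x + 1) + J · 2(x^(1/3) + 1) ≤ C √x` (`log x ≤ 6 x^(1/6)`). -/
def StTRF : Prop :=
  ∃ C : ℝ, 0 < C ∧ ∀ (x : ℝ) (P : ℤ → ℤ → Prop), 1 ≤ x →
    |(({d | d ∈ Fam x ∧ ∃ t n : ℤ, UTN d t n ∧ P t n}.ncard : ℝ))
      - ((cnt ⌊x⌋₊ (fun t => P t 1) : ℝ) + cnt ⌊x⌋₊ (fun t => P t (-1)))| ≤ C * Real.sqrt x

/-- LIF (no hypotheses, about 120 lines). The congruences for `V_p`.

(1) In the algebraic closure of `ZMod p` let `x` be a root of `X² - tX + n`, `y = t - x`, `x y = n`: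
`V_m = x^m + y^m` (induction), `V_p = x^p + y^p = (x + y)^p = t^p = t` (Frobenius, and `ZMod.pow_card`;
injectivity of `ZMod p → AlgebraicClosure`).
(2) Let `U_0 = 0`, `U_1 = 1`, `U_(m+2) = t U_(m+1) - n U_m`, as polynomials in `T = t` over `ℤ` (`n` fixed), `V_m` too.
Then `V_(m+1) = T U_(m+1) - 2 n U_m` and `d/dT V_m = m U_m` (induction, two step). So with
`V_p ∈ ℤ[T]`: `V_p(t + p s) ≡ V_p(t) + p s V_p'(t) = V_p(t) + p² s U_p(t) .. ≡ V_p(t) (mod p²)`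
(`Polynomial.evalSubFactor`, or `Polynomial.binomExpansion`: `eval (x+y) f = eval x f + f'(x) y + k y²`). -/
def StLIF : Prop :=
  ∀ (n : ℤ) (p : ℕ), p.Prime → (∀ t : ℤ, lucV t n p ≡ t [ZMOD (p : ℤ)]) ∧
    ∀ t s : ℤ, lucV (t + p * s) n p ≡ lucV t n p [ZMOD (p : ℤ) ^ 2]

/-- CNT (hLIF : StLIF), about 200 lines. Counting traces in residue classes with prescribed quotients.

Induction on `S` (all `M`, `c`). `S = ∅`: one residue class modulo `M` in `[1, X]`: `⌊X/M⌋` or `⌊X/M⌋ + 1`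
elements. Step `S ∪ {p}`: by LIF, for `r ∈ ℤ` the numbers `t ≡ r (mod p)` with `V_p ≡ t + p a (mod p²)` are exactly
`t ≡ r* (mod p²)` with `r* = V_p(r) - p a` (`t = r + p s`: `V_p(t) ≡ V_p(r)`; and `r* ≡ r (mod p)`). If `p ∤ M`: sum over
`r = 0, .., p-1`; `t ≡ c (mod M)` and `t ≡ r* (mod p²)` is one class modulo `M p²` (CRT), and the
hypothesis for `S` and `M p²` (the primes of `S` are `≠ p`, so `p'² ∤ M p²`) gives
`p · X/(M p² ∏_S) = X/(M ∏_{S ∪ p})`, error `p ∏_S`. If `p ∣ M`, `p² ∤ M`: `t ≡ c (mod M)` forces `r = c`; with `c* = V_p(c) - p a`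
the two conditions `t ≡ c (mod M)`, `t ≡ c* (mod p²)` are compatible (both `≡ c (mod p)`) and are one class
modulo `M p = lcm(M, p²)`; the hypothesis for `M p`: `X/(M p ∏_S)`, error `∏_S ≤ p ∏_S`. -/
def StCNT : Prop :=
  ∀ (n : ℤ) (S : Finset ℕ) (M : ℕ) (c : ℤ) (a : ℕ → ℤ) (X : ℕ), 0 < M →
    (∀ p ∈ S, p.Prime ∧ ¬ p ^ 2 ∣ M) →
    |(cnt X (fun t => t ≡ c [ZMOD (M : ℤ)] ∧ ∀ p ∈ S, lucV t n p ≡ t + p * a p [ZMOD (p : ℤ) ^ 2]) : ℝ)
      - X / (M * ∏ p ∈ S, (p : ℝ))| ≤ ∏ p ∈ S, (p : ℝ)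

/-- SIE (hCNT : StCNT), about 200 lines. Selberg's sieve, with the weights of
`Pool.Agent.Helper58.MR.Sel` (`Pool.MR.selberg`, `Pool.MR.selL`; on main).

`z = X^(1/12)`. Take `lam = selL ⌊z⌋`; `lam d = 0` unless `d` is squarefree (in `selL N d` every `l` with `d ∣ l` has
`μ(l) = 0`). For `t` let `g(t,d) = 1` if all primes `p ∣ d` satisfy `V_p ≡ t (mod p²)`, else `0`. If no prime `p`
satisfies the congruence then `∑_d lam d · g(t,d) = lam 1 = 1`. So the number in question is at most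
`∑_{t ≤ X} (∑_{d ≤ z} lam d g(t,d))² = ∑_{d1,d2} lam d1 lam d2 #{t ≤ X : g(t, lcm) = 1}`, and by CNT (`M = 1`,
`S = primeFactors (lcm d1 d2)`, squarefree lcm so `∏ = lcm`, `a = 0`) the last number is `X/lcm + O(lcm)`:
`≤ 2X/log z + ∑ |lam d1 lam d2| d1 d2 ≤ 24 X/log X + z² (z²)² = 24 X/log X + √X`. -/
def StSIE : Prop :=
  ∃ C : ℝ, 0 < C ∧ ∀ (n : ℤ) (X : ℕ), 2 ≤ X →
    (cnt X (fun t => ∀ p : ℕ, p.Prime → ¬ lucV t n p ≡ t [ZMOD (p : ℤ) ^ 2]) : ℝ)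
      ≤ C * (X / Real.log X)

/-- TUR (hCNT : StCNT), about 250 lines. Turan's inequality. Mertens' theorem in the form
`|∑_{p ≤ y} 1/p - log log y| ≤ C` is proved in the pool (for example `Pool/Agent/Helper69/RM`, `Helper13/JC/Mert`).

`y = X^(1/5)`, `ω(t) = om y t n = ∑_{p ≤ y} 1_p(t)`, `L = ∑_{p ≤ y} 1/p`. By CNT (`M = 1`, `a = 0`, `S = {p}`, `{p,q}`):
`∑_t ω = X L + O(y²)`, `∑_t ω² = ∑_{p ≠ q} (X/(pq) + O(pq)) + ∑_p (X/p + O(p)) ≤ X L² + X L + 2 y⁴`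
(`∑_{p ≤ y} p ≤ y²`). So `∑_t (ω - L)² ≤ X L + 2y⁴ + 2 L y² ≤ C X (L + 1)`, and
`(ω - log log X)² ≤ 2 (ω - L)² + 2 (L - log log X)²`, `|L - log log X| ≤ C`. -/
def StTUR : Prop :=
  ∃ C : ℝ, 0 < C ∧ ∀ (n : ℤ) (X : ℕ), 16 ≤ X →
    ∑ t ∈ Finset.Icc (1 : ℤ) X,
      ((om ((X : ℝ) ^ ((1 : ℝ) / 5)) t n : ℝ) - Real.log (Real.log X)) ^ 2
      ≤ C * (X * Real.log (Real.log X))

end Pool.Agent.Helper69.WS
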