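import Pool.Agent.Helper69.WS.St

/-!
Module ALG of project WS: units of real quadratic fields and their traces.
-/

set_option autoImplicit false

namespace Pool.Agent.Helper69.WS

open Polynomial

theorem irr_sqrt {d : ℕ} (hd : 1 < d) (hs : Squarefree d) : Irrational (Real.sqrt d) := by
  rw [irrational_sqrt_natCast_iff]
  rintro ⟨k, hk⟩
  have h1 : IsUnit k := hs k ⟨1, by rw [mul_one]; exact hk⟩
  rw [Nat.isUnit_iff] at h1
  rw [h1] at hk
  omega

/-- `a + b√d`, `b ≠ 0`, is irrational -/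
theorem irr_ab {d : ℕ} (hd : 1 < d) (hs : Squarefree d) {a b : ℚ} (hb : b ≠ 0) :
    Irrational ((a : ℝ) + b * Real.sqrt d) :=
  (Irrational.ratCast_mul (irr_sqrt hd hs) hb).ratCast_add a

/-- a linear relation over `ℚ` with an irrational number is trivial -/
theorem lin_irr {x : ℝ} (hx : Irrational x) {u v : ℚ} (h : (u : ℝ) + v * x = 0) :
    u = 0 ∧ v = 0 := by
  by_cases hv : v = 0
  · subst hv
    have : (u : ℝ) = 0 := by simpa using h
    exact ⟨by exact_mod_cast this, rfl⟩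
  · exfalso
    apply hx
    refine ⟨-u / v, ?_⟩
    have hv' : (v : ℝ) ≠ 0 := by exact_mod_cast hv
    push_cast
    field_simp
    linarith

theorem quad_root {d : ℕ} (a b : ℚ) :
    ((a : ℝ) + b * Real.sqrt d) ^ 2 - 2 * a * ((a : ℝ) + b * Real.sqrt d)
      + ((a : ℝ) ^ 2 - d * b ^ 2) = 0 := by
  have h : Real.sqrt d ^ 2 = d := Real.sq_sqrt (Nat.cast_nonneg d)
  linear_combination (b : ℝ) ^ 2 * h

/-- trace and norm of an integral element are integers -/
theorem int_TN {d : ℕ} (hd : 1 < d) (hs : Squarefree d) {a b : ℚ} (hb : b ≠ 0)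
    (hi : IsIntegral ℤ ((a : ℝ) + b * Real.sqrt d)) :
    ∃ t n : ℤ, (t : ℚ) = 2 * a ∧ (n : ℚ) = a ^ 2 - d * b ^ 2 := by
  set x : ℝ := (a : ℝ) + b * Real.sqrt d with hx
  have hxi : Irrational x := irr_ab hd hs hb
  set q : ℚ[X] := X ^ 2 + (C (-(2 * a)) * X + C (a ^ 2 - d * b ^ 2)) with hq
  have hdeg1 : (C (-(2 * a)) * X + C (a ^ 2 - (d : ℚ) * b ^ 2) : ℚ[X]).degree
      < ((2 : ℕ) : WithBot ℕ) := by
    refine lt_of_le_of_lt degree_linear_le ?_
    norm_num
  have hqm : q.Monic := monic_X_pow_add hdeg1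
  have hqd : q.degree = 2 := by
    rw [hq, degree_add_eq_left_of_degree_lt]
    · rw [degree_X_pow]; rfl
    · rw [degree_X_pow]; exact hdeg1
  have hq0 : aeval x q = 0 := by
    rw [hq]
    simp only [map_add, map_mul, map_pow, aeval_X, aeval_C, eq_ratCast]
    push_cast
    have := quad_root (d := d) a b
    rw [← hx] at this
    linarith
  have hmin : q = minpoly ℚ x := by
    refine minpoly.unique' ℚ x hqm hq0 fun r hr => ?_
    rw [hqd] at hr
    have hr1 : r.degree ≤ 1 := by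
      by_contra hcon
      push Not at hcon
      exact absurd (Order.succ_le_of_lt hcon) (not_le.2 hr)
    rw [eq_X_add_C_of_degree_le_one hr1]
    by_cases h0 : r.coeff 0 = 0 ∧ r.coeff 1 = 0
    · left
      rw [h0.1, h0.2]
      simp
    · right
      intro h
      apply h0
      simp only [map_add, map_mul, aeval_X, aeval_C, eq_ratCast] at h
      refine lin_irr hxi (u := r.coeff 0) (v := r.coeff 1) ?_
      linarith
  have hmap : minpoly ℚ x = (minpoly ℤ x).map (algebraMap ℤ ℚ) :=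
    minpoly.isIntegrallyClosed_eq_field_fractions' ℚ hi
  refine ⟨-(minpoly ℤ x).coeff 1, (minpoly ℤ x).coeff 0, ?_, ?_⟩
  · have h1 : q.coeff 1 = ((minpoly ℤ x).coeff 1 : ℚ) := by
      rw [hmin, hmap, coeff_map]; simp
    have h2 : q.coeff 1 = -(2 * a) := by
      rw [hq]
      simp only [coeff_add, coeff_X_pow, coeff_C_mul, coeff_X, coeff_C]
      norm_num
    push_cast
    rw [← h1, h2]
    ring
  · have h1 : q.coeff 0 = ((minpoly ℤ x).coeff 0 : ℚ) := by
      rw [hmin, hmap, coeff_map]; simp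
    have h2 : q.coeff 0 = a ^ 2 - d * b ^ 2 := by
      rw [hq]
      simp only [coeff_add, coeff_X_pow, coeff_C_mul, coeff_X, coeff_C]
      norm_num
    rw [← h1, h2]

/-- an integral rational number is an integer -/
theorem int_rat {a : ℚ} (h : IsIntegral ℤ ((a : ℝ))) : ∃ k : ℤ, (k : ℚ) = a := by
  have h1 : IsIntegral ℤ a := by
    have : IsIntegral ℤ (algebraMap ℚ ℝ a) := h
    exact (isIntegral_algebraMap_iff (algebraMap ℚ ℝ).injective).1 this
  obtain ⟨k, hk⟩ := IsIntegrallyClosed.isIntegral_iff.1 h1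
  exact ⟨k, by simpa using hk⟩

/-- the structure of the elements of `Un d` -/
theorem un_struct {d : ℕ} (hd : 1 < d) (hs : Squarefree d) {x : ℝ} (hx : x ∈ Un d) :
    ∃ (a b : ℚ) (t n : ℤ), b ≠ 0 ∧ x = a + b * Real.sqrt d ∧ (t : ℚ) = 2 * a ∧
      (n : ℚ) = a ^ 2 - d * b ^ 2 ∧ (n = 1 ∧ 3 ≤ t ∨ n = -1 ∧ 1 ≤ t) ∧
      x ^ 2 - t * x + n = 0 := by
  obtain ⟨hx1, ⟨a, b, hab⟩, hi, hi'⟩ := hx
  have hb : b ≠ 0 := by
    rintro rfl
    have hxa : x = (a : ℝ) := by rw [hab]; simp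
    rw [hxa] at hi hi' hx1
    obtain ⟨k, hk⟩ := int_rat hi
    have hi'' : IsIntegral ℤ (((a⁻¹ : ℚ)) : ℝ) := by push_cast; exact hi'
    obtain ⟨m, hm⟩ := int_rat hi''
    have ha1 : (1 : ℚ) < a := by exact_mod_cast hx1
    have hk1 : (1 : ℤ) < k := by
      have : (1 : ℚ) < k := by rw [hk]; exact ha1
      exact_mod_cast this
    have hkm : (k : ℚ) * m = 1 := by
      rw [hk, hm]
      field_simp
    have hkm' : k * m = 1 := by exact_mod_cast hkm
    have := Int.eq_one_or_neg_one_of_mul_eq_one hkm'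
    omega
  have hirr := irr_ab hd hs (a := a) hb
  obtain ⟨t, n, ht, hn⟩ := int_TN hd hs hb (by rw [← hab]; exact hi)
  have hroot := quad_root (d := d) a b
  rw [← hab] at hroot
  have htR : (t : ℝ) = 2 * a := by
    have h := congrArg (fun z : ℚ => (z : ℝ)) ht
    push_cast at h
    exact h
  have hnR : (n : ℝ) = (a : ℝ) ^ 2 - d * b ^ 2 := by
    have h := congrArg (fun z : ℚ => (z : ℝ)) hn
    push_cast at h
    exact h
  rw [← htR, ← hnR] at hroot
  have hx0 : x ≠ 0 := by linarith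
  -- the norm is not zero
  have hn0 : (n : ℝ) ≠ 0 := by
    intro h0
    rw [h0] at hroot
    have h1 : x * (x - t) = 0 := by linarith
    rcases mul_eq_zero.1 h1 with h2 | h2
    · exact hx0 h2
    · rw [← hab] at hirr
      apply hirr
      exact ⟨t, by push_cast; linarith⟩
  have hn0' : (n : ℚ) ≠ 0 := by exact_mod_cast hn0
  -- the inverse
  have hinv : x⁻¹ = ((a / n : ℚ) : ℝ) + ((-(b / n) : ℚ) : ℝ) * Real.sqrt d := by
    have h1 : x * (t - x) = n := by linarith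
    have h2 : x⁻¹ = (t - x) / n := by
      field_simp
      linarith
    rw [h2, htR, hab]
    push_cast
    field_simp
    ring
  obtain ⟨t2, n2, ht2, hn2⟩ := int_TN hd hs (a := a / n) (b := -(b / n))
    (neg_ne_zero.2 (div_ne_zero hb hn0')) (by rw [← hinv]; exact hi')
  have hn3 : (n : ℚ) * n2 = 1 := by
    rw [hn2]
    have : (n : ℚ) * ((a / n) ^ 2 - d * (-(b / n)) ^ 2) = (a ^ 2 - d * b ^ 2) / n := by
      field_simp
    rw [this, ← hn]
    field_simp
  have hn4 : n * n2 = 1 := by exact_mod_cast hn3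
  refine ⟨a, b, t, n, hb, hab, ht, hn, ?_, hroot⟩
  rcases Int.eq_one_or_neg_one_of_mul_eq_one hn4 with h1 | h1
  · left
    refine ⟨h1, ?_⟩
    rw [h1] at hroot
    push_cast at hroot
    have h2 : (2 : ℝ) < t := by
      have h3 : 0 < (x - 1) ^ 2 := by
        have : 0 < x - 1 := by linarith
        positivity
      have h4 : (2 : ℝ) * x < t * x := by nlinarith
      exact lt_of_mul_lt_mul_right h4 (by linarith)
    have : (2 : ℤ) < t := by exact_mod_cast h2
    omega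
  · right
    refine ⟨h1, ?_⟩
    rw [h1] at hroot
    push_cast at hroot
    have h2 : (0 : ℝ) < t := by
      have h4 : (0 : ℝ) * x < t * x := by nlinarith
      exact lt_of_mul_lt_mul_right h4 (by linarith)
    have : (0 : ℤ) < t := by exact_mod_cast h2
    omega

theorem un_unique {d : ℕ} (hd : 1 < d) (hs : Squarefree d) {x : ℝ} (hx : x ∈ Un d)
    {t n t' n' : ℤ} (h1 : x ^ 2 - t * x + n = 0) (h2 : x ^ 2 - t' * x + n' = 0) :
    t' = t ∧ n' = n := by
  obtain ⟨a, b, -, -, hb, hab, -⟩ := un_struct hd hs hx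
  have hirr : Irrational x := by rw [hab]; exact irr_ab hd hs hb
  obtain ⟨h3, h4⟩ := lin_irr hirr (u := ((n' - n : ℤ) : ℚ)) (v := ((t - t' : ℤ) : ℚ)) (by
    push_cast; linarith)
  have h5 : n' - n = 0 := by exact_mod_cast h3
  have h6 : t - t' = 0 := by exact_mod_cast h4
  omega

theorem un_mul {d : ℕ} {x y : ℝ} (hx : x ∈ Un d) (hy : y ∈ Un d) : x * y ∈ Un d := by
  obtain ⟨hx1, ⟨a, b, hab⟩, hi, hi'⟩ := hx
  obtain ⟨hy1, ⟨a', b', hab'⟩, hj, hj'⟩ := hy
  refine ⟨by nlinarith, ⟨a * a' + d * (b * b'), a * b' + a' * b, ?_⟩, hi.mul hj, ?_⟩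
  · have h : Real.sqrt d ^ 2 = d := Real.sq_sqrt (Nat.cast_nonneg d)
    rw [hab, hab']
    push_cast
    linear_combination (b : ℝ) * b' * h
  · rw [mul_inv]
    exact hi'.mul hj'

theorem un_pow {d : ℕ} {x : ℝ} (hx : x ∈ Un d) (j : ℕ) (hj : 1 ≤ j) : x ^ j ∈ Un d := by
  induction j, hj using Nat.le_induction with
  | base => simpa using hx
  | succ k _ ih => rw [pow_succ]; exact un_mul ih hx

theorem un_div {d : ℕ} (hd : 1 < d) (hs : Squarefree d) {x y : ℝ} (hx : x ∈ Un d)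
    (hy : y ∈ Un d) (h : 1 < x * y⁻¹) : x * y⁻¹ ∈ Un d := by
  obtain ⟨c, e, t, n, -, hce, -, -, hadm, hroot⟩ := un_struct hd hs hy
  obtain ⟨hx1, ⟨a, b, hab⟩, hi, hi'⟩ := hx
  obtain ⟨hy1, -, hj, hj'⟩ := hy
  have hy0 : y ≠ 0 := by linarith
  have hnn : (n : ℝ) * n = 1 := by
    rcases hadm with ⟨h1, -⟩ | ⟨h1, -⟩ <;> rw [h1] <;> norm_num
  have hyinv : y⁻¹ = n * (t - y) := by
    have h1 : y * (t - y) = n := by linarith
    field_simp
    linear_combination (-(n : ℝ)) * h1 - hnn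
  refine ⟨h, ⟨a * (n * (t - c)) + d * (b * (-(n * e))), a * (-(n * e)) + (n * (t - c)) * b, ?_⟩,
    hi.mul hj', ?_⟩
  · have h2 : Real.sqrt d ^ 2 = d := Real.sq_sqrt (Nat.cast_nonneg d)
    rw [hyinv, hab, hce]
    push_cast
    linear_combination (-(b : ℝ) * n * e) * h2
  · rw [mul_inv, inv_inv]
    exact hi'.mul hj

theorem roots_finite (t n : ℤ) : {x : ℝ | x ^ 2 - t * x + n = 0}.Finite := by
  refine Set.Finite.subset
    (Set.toFinite {((t : ℝ) + Real.sqrt ((t : ℝ) ^ 2 - 4 * n)) / 2,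
      ((t : ℝ) - Real.sqrt ((t : ℝ) ^ 2 - 4 * n)) / 2}) ?_
  intro x hx
  simp only [Set.mem_ofPred_eq] at hx
  have h1 : (2 * x - t) ^ 2 = (t : ℝ) ^ 2 - 4 * n := by linarith
  have h2 : Real.sqrt ((t : ℝ) ^ 2 - 4 * n) = |2 * x - t| := by
    rw [← h1, Real.sqrt_sq_eq_abs]
  simp only [Set.mem_insert_iff, Set.mem_singleton_iff]
  rw [h2]
  rcases abs_cases (2 * x - t) with ⟨h3, -⟩ | ⟨h3, -⟩
  · left; rw [h3]; ring
  · right; rw [h3]; ring

theorem un_le_finite {d : ℕ} (hd : 1 < d) (hs : Squarefree d) (B : ℝ) :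
    {x : ℝ | x ∈ Un d ∧ x ≤ B}.Finite := by
  refine Set.Finite.subset
    (Set.Finite.biUnion (Set.finite_Icc (1 : ℤ) (⌊B⌋ + 1)) (fun t _ =>
      ((roots_finite t 1).union (roots_finite t (-1))))) ?_
  rintro x ⟨hx, hxB⟩
  obtain ⟨a, b, t, n, -, -, -, -, hadm, hroot⟩ := un_struct hd hs hx
  have hx1 : 1 < x := hx.1
  simp only [Set.mem_iUnion, Set.mem_union, Set.mem_ofPred_eq]
  have hxB' : x < ⌊B⌋ + 1 := lt_of_le_of_lt hxB (Int.lt_floor_add_one B)
  refine ⟨t, ?_, ?_⟩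
  · rw [Set.mem_Icc]
    refine ⟨by omega, ?_⟩
    have ht : (t : ℝ) < ⌊B⌋ + 1 + 1 := by
      rcases hadm with ⟨h1, -⟩ | ⟨h1, -⟩
      · rw [h1] at hroot
        push_cast at hroot
        have : (t : ℝ) * x < (⌊B⌋ + 1 + 1) * x := by nlinarith
        exact lt_of_mul_lt_mul_right this (by linarith)
      · rw [h1] at hroot
        push_cast at hroot
        have : (t : ℝ) * x < (⌊B⌋ + 1 + 1) * x := by nlinarith
        exact lt_of_mul_lt_mul_right this (by linarith)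
    have : t < ⌊B⌋ + 1 + 1 := by exact_mod_cast ht
    omega
  · rcases hadm with ⟨h1, -⟩ | ⟨h1, -⟩
    · left; rw [h1] at hroot; exact hroot
    · right; rw [h1] at hroot; exact hroot

/-- a nonempty `Un d` has a least element and consists of its powers -/
theorem un_pow_least {d : ℕ} (hd : 1 < d) (hs : Squarefree d) {x : ℝ} (hx : x ∈ Un d) :
    ∃ (e : ℝ) (j : ℕ), IsFund d e ∧ 1 ≤ j ∧ x = e ^ j := by
  obtain ⟨e, ⟨he, hex⟩, hmin⟩ := Set.exists_min_image _ id (un_le_finite hd hs x) ⟨x, hx, le_rfl⟩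
  have hfund : IsFund d e := by
    refine ⟨he, fun y hy => ?_⟩
    by_cases hyx : y ≤ x
    · exact hmin y ⟨hy, hyx⟩
    · exact hex.trans (not_le.1 hyx).le
  have he1 : 1 < e := he.1
  obtain ⟨j, hj1, hj2⟩ := exists_nat_pow_near hx.1.le he1
  have hj : 1 ≤ j := by
    by_contra hcon
    have h0 : j = 0 := by omega
    rw [h0] at hj2
    simp only [zero_add, pow_one] at hj2
    exact absurd hex (not_le.2 hj2)
  refine ⟨e, j, hfund, hj, ?_⟩
  rcases hj1.eq_or_lt with h | h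
  · exact h.symm
  · exfalso
    have hpos : 0 < e ^ j := by positivity
    have h1 : 1 < x * (e ^ j)⁻¹ := by
      rw [← div_eq_mul_inv, one_lt_div hpos]
      exact h
    have h2 := un_div hd hs hx (un_pow he j hj) h1
    have h3 := hfund.2 h2
    have h4 : x * (e ^ j)⁻¹ < e := by
      rw [← div_eq_mul_inv, div_lt_iff₀ hpos, ← pow_succ']
      exact hj2
    linarith

theorem not_sq {t n : ℤ} (h : n = 1 ∧ 3 ≤ t ∨ n = -1 ∧ 1 ≤ t) (s : ℤ) :
    t ^ 2 - 4 * n ≠ s ^ 2 := by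
  intro hs
  rcases h with ⟨rfl, ht⟩ | ⟨rfl, ht⟩
  · -- `|s| < t`, so `|s| ≤ t - 1`
    have h1 : |s| < t := by
      apply lt_of_pow_lt_pow_left₀ 2 (by omega)
      rw [sq_abs]; omega
    have h2 : |s| ≤ t - 1 := by omega
    have h3 : |s| ^ 2 ≤ (t - 1) ^ 2 := by
      apply pow_le_pow_left₀ (abs_nonneg s) h2
    rw [sq_abs] at h3
    nlinarith
  · have h1 : t < |s| := by
      apply lt_of_pow_lt_pow_left₀ 2 (abs_nonneg s)
      rw [sq_abs]; omega
    have h2 : t + 1 ≤ |s| := by omega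
    have h3 : (t + 1) ^ 2 ≤ |s| ^ 2 := by
      apply pow_le_pow_left₀ (by omega) h2
    rw [sq_abs] at h3
    have ht1 : t = 1 := by nlinarith
    rw [ht1] at hs h2
    have h4 : |s| ^ 2 = 5 := by rw [sq_abs]; omega
    have h5 : |s| < 3 := by nlinarith [abs_nonneg s]
    have h6 : |s| = 2 := by omega
    rw [h6] at h4
    norm_num at h4

theorem un_of_root {t n : ℤ} (hadm : n = 1 ∧ 3 ≤ t ∨ n = -1 ∧ 1 ≤ t) {x : ℝ} (hx1 : 1 < x)
    (hroot : x ^ 2 - t * x + n = 0) : ∃ d : ℕ, 1 < d ∧ Squarefree d ∧ x ∈ Un d := by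
  have hDpos : 0 < t ^ 2 - 4 * n := by
    rcases hadm with ⟨h1, h2⟩ | ⟨h1, h2⟩ <;> rw [h1] <;> nlinarith
  obtain ⟨D, hD⟩ : ∃ D : ℕ, (D : ℤ) = t ^ 2 - 4 * n := ⟨(t ^ 2 - 4 * n).toNat, by omega⟩
  obtain ⟨d, u, hdu, hsd⟩ := Nat.sq_mul_squarefree D
  have hd0 : d ≠ 0 := by
    rintro rfl
    simp at hdu
    omega
  have hd1 : d ≠ 1 := by
    rintro rfl
    apply not_sq hadm (u : ℤ)
    rw [← hD, ← hdu]
    push_cast
    ring
  refine ⟨d, by omega, hsd, hx1, ?_, ?_, ?_⟩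
  · have h1 : (2 * x - t) ^ 2 = ((u : ℝ) * Real.sqrt d) ^ 2 := by
      have h2 : Real.sqrt d ^ 2 = d := Real.sq_sqrt (Nat.cast_nonneg d)
      have h3 : ((D : ℤ) : ℝ) = (t : ℝ) ^ 2 - 4 * n := by rw [hD]; push_cast; ring
      have h4 : ((u : ℝ) ^ 2 * d) = D := by exact_mod_cast hdu
      have h5 : ((D : ℤ) : ℝ) = (D : ℝ) := by push_cast; rfl
      rw [mul_pow, h2, h4, ← h5, h3]
      linarith
    rcases sq_eq_sq_iff_eq_or_eq_neg.1 h1 with h2 | h2
    · exact ⟨t / 2, u / 2, by push_cast; linarith⟩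
    · exact ⟨t / 2, -(u / 2), by push_cast; linarith⟩
  · refine ⟨X ^ 2 + (C (-t) * X + C n), monic_X_pow_add ?_, ?_⟩
    · exact lt_of_le_of_lt degree_linear_le (by norm_num)
    · simp only [eval₂_add, eval₂_mul, eval₂_pow, eval₂_X, eval₂_C]
      simp only [algebraMap_int_eq, eq_intCast]
      push_cast
      linarith
  · refine ⟨X ^ 2 + (C (-(n * t)) * X + C n), monic_X_pow_add ?_, ?_⟩
    · exact lt_of_le_of_lt degree_linear_le (by norm_num)
    · have hx0 : x ≠ 0 := by linarith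
      have hnn : (n : ℝ) * n = 1 := by
        rcases hadm with ⟨h1, -⟩ | ⟨h1, -⟩ <;> rw [h1] <;> norm_num
      simp only [eval₂_add, eval₂_mul, eval₂_pow, eval₂_X, eval₂_C]
      simp only [algebraMap_int_eq, eq_intCast]
      push_cast
      field_simp
      linear_combination (n : ℝ) * hroot - hnn

theorem hALG : StALG := by
  refine ⟨?_, ?_, ?_⟩
  · intro d e hd hs he
    obtain ⟨a, b, t, n, -, -, -, -, hadm, hroot⟩ := un_struct hd hs he
    exact ⟨t, n, hadm, hroot, fun t' n' h => un_unique hd hs he hroot h⟩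
  · intro t n x hadm hx1 hroot
    obtain ⟨d, hd, hs, hx⟩ := un_of_root hadm hx1 hroot
    obtain ⟨e, j, he, hj, hxe⟩ := un_pow_least hd hs hx
    exact ⟨d, e, j, hd, hs, he, hj, hxe⟩
  · intro d d' e hd hs hd' hs' he he'
    obtain ⟨a, b, t, n, hb, hab, ht, hn, hadm, hroot⟩ := un_struct hd hs he.1
    obtain ⟨a', b', t', n', hb', hab', ht', hn', hadm', hroot'⟩ := un_struct hd' hs' he'.1
    obtain ⟨h1, h2⟩ := un_unique hd hs he.1 hroot hroot'
    have haa : a' = a := by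
      rw [h1] at ht'
      linarith
    have hdb : (d : ℚ) * b ^ 2 = d' * b' ^ 2 := by
      rw [h2, haa] at hn'
      linarith
    have hsq : IsSquare ((d * d' : ℕ) : ℚ) := by
      refine ⟨d' * b' / b, ?_⟩
      push_cast
      rw [div_mul_div_comm, eq_div_iff (mul_ne_zero hb hb)]
      linear_combination (d' : ℚ) * hdb
    rw [Rat.isSquare_natCast_iff] at hsq
    obtain ⟨s, hss⟩ := hsq
    have h3 : d ∣ s ^ 2 := ⟨d', by rw [hss]; ring⟩
    have h4 : d ∣ s := (hs.dvd_pow_iff_dvd (by norm_num)).1 h3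
    obtain ⟨k, hk⟩ := h4
    have h5 : d' = d * (k * k) := by
      have hd0 : 0 < d := by omega
      apply Nat.eq_of_mul_eq_mul_left hd0
      rw [hss, hk]
      ring
    have h6 : IsUnit k := hs' k ⟨d, by rw [h5]; ring⟩
    rw [Nat.isUnit_iff] at h6
    rw [h5, h6]
    ring

end Pool.Agent.Helper69.WS
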