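import Pool.Agent.Helper69.WS.M_TOP

/-!
Module PW of project WS: units which are not fundamental.
-/

set_option autoImplicit false

namespace Pool.Agent.Helper69.WS

/-- `V_k = y^k + (s - y)^k` -/
theorem lucV_eq {s m : ℤ} {y : ℝ} (h : y ^ 2 - s * y + m = 0) (k : ℕ) :
    (lucV s m k : ℝ) = y ^ k + ((s : ℝ) - y) ^ k := by
  induction k using Nat.twoStepInduction with
  | zero => simp [lucV]; norm_num
  | one => simp [lucV]
  | more k ih1 ih2 =>
    have e : lucV s m (k + 2) = s * lucV s m (k + 1) - m * lucV s m k := rfl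
    rw [e]
    push_cast
    rw [ih1, ih2]
    have h2 : (m : ℝ) = s * y - y ^ 2 := by linarith
    rw [h2]
    ring

/-- the trace and the norm of a `p`-th power -/
theorem pow_root {s m : ℤ} {y : ℝ} (h : y ^ 2 - s * y + m = 0) (k : ℕ) :
    (y ^ k) ^ 2 - (lucV s m k : ℤ) * y ^ k + ((m ^ k : ℤ) : ℝ) = 0 := by
  rw [lucV_eq h k]
  have h2 : (m : ℝ) = y * ((s : ℝ) - y) := by linarith
  push_cast
  rw [h2, mul_pow]
  ring

/-- the congruence for a `p`-th power -/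
theorem pow_wss (hLIF : StLIF) {p : ℕ} (hp : p.Prime) (s m : ℤ) (hm : m = 1 ∨ m = -1) :
    lucV (lucV s m p) (m ^ p) p ≡ lucV s m p [ZMOD (p : ℤ) ^ 2] := by
  rcases hp.eq_two_or_odd' with rfl | hodd
  · have e : ∀ t n : ℤ, lucV t n 2 = t * t - n * 2 := fun _ _ => rfl
    rw [e, e]
    have hm2 : m ^ 2 = 1 := by rcases hm with rfl | rfl <;> norm_num
    rw [hm2]
    push_cast
    rcases Int.even_or_odd s with ⟨r, hr⟩ | ⟨r, hr⟩
    · rcases hm with rfl | rfl
      · rw [Int.modEq_iff_dvd]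
        refine ⟨-(4 * r ^ 4) + 5 * r ^ 2 - 1, ?_⟩
        rw [hr]; ring
      · rw [Int.modEq_iff_dvd]
        refine ⟨-(4 * r ^ 4) - 3 * r ^ 2, ?_⟩
        rw [hr]; ring
    · rcases hm with rfl | rfl
      · rw [Int.modEq_iff_dvd]
        refine ⟨-((4 * r ^ 4) + 8 * r ^ 3 + r ^ 2 - 3 * r), ?_⟩
        rw [hr]; ring
      · rw [Int.modEq_iff_dvd]
        refine ⟨-((4 * r ^ 4) + 8 * r ^ 3 + 9 * r ^ 2 + 5 * r + 1), ?_⟩
        rw [hr]; ring
  · have hmp : m ^ p = m := by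
      rcases hm with rfl | rfl
      · exact one_pow p
      · exact hodd.neg_one_pow
    rw [hmp]
    obtain ⟨h1, h2⟩ := hLIF m p hp
    have h3 := (h1 s).symm.dvd
    obtain ⟨r, hr⟩ := h3
    have h4 : lucV s m p = s + p * r := by linarith
    have h5 := h2 s r
    rw [← h4] at h5
    exact h5

/-- a unit `> 1` which is not fundamental has a Wall-Sun-Sun prime -/
theorem nonfund (hLIF : StLIF) {d : ℕ} (hd : 1 < d) (hs : Squarefree d) {x : ℝ}
    (hx : x ∈ Un d) (hnf : ¬ IsFund d x) :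
    ∃ (p : ℕ) (t n : ℤ), p.Prime ∧ (n = 1 ∨ n = -1) ∧ x ^ 2 - t * x + n = 0 ∧
      lucV t n p ≡ t [ZMOD (p : ℤ) ^ 2] := by
  obtain ⟨e, j, he, hj, hxe⟩ := un_pow_least hd hs hx
  have hj1 : j ≠ 1 := by
    rintro rfl
    rw [pow_one] at hxe
    rw [hxe] at hnf
    exact hnf he
  obtain ⟨p, hp, k, hk⟩ := Nat.exists_prime_and_dvd hj1
  have hk0 : 1 ≤ k := by
    rcases Nat.eq_zero_or_pos k with h | h
    · rw [h] at hk; omega
    · exact h
  obtain ⟨a, b, s, m, -, -, -, -, hadm, hroot⟩ := un_struct hd hs (un_pow he.1 k hk0)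
  have hm : m = 1 ∨ m = -1 := by
    rcases hadm with ⟨h, -⟩ | ⟨h, -⟩
    · exact Or.inl h
    · exact Or.inr h
  refine ⟨p, lucV s m p, m ^ p, hp, ?_, ?_, pow_wss hLIF hp s m hm⟩
  · rcases hm with rfl | rfl
    · left; exact one_pow p
    · exact neg_one_pow_eq_or ℤ p
  · have hx' : x = (e ^ k) ^ p := by rw [hxe, hk, ← pow_mul, mul_comm k p]
    rw [hx']
    exact pow_root hroot p

end Pool.Agent.Helper69.WS
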