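import Pool.Agent.Helper69.WS.M_ALG

/-!
Module TOP of project WS: assembly.
-/

set_option autoImplicit false

namespace Pool.Agent.Helper69.WS

open Filter Topology

/-- the number of Wall-Sun-Sun primes `p ≤ y` of `ℚ(√d)` -/
noncomputable def nW (y : ℝ) (d : ℕ) : ℕ := {p : ℕ | (p : ℝ) ≤ y ∧ WSS d p}.ncard

def StTOP : Prop :=
  (∀ p : ℕ, p.Prime → (WSS 5 p ↔ Nat.fib (p - 1) + Nat.fib (p + 1) ≡ 1 [MOD p ^ 2])) ∧
  ((∀ x : ℝ, (Fam x).Finite) ∧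
    ∃ C : ℝ, ∀ x : ℝ, 1 ≤ x → |((Fam x).ncard : ℝ) - 2 * x| ≤ C * Real.sqrt x) ∧
  (∃ C : ℝ, ∀ x : ℝ, 2 ≤ x →
    ({d | d ∈ Fam x ∧ ∀ p, ¬ WSS d p}.ncard : ℝ) ≤ C * (x / Real.log x)) ∧
  (∀ δ : ℝ, 0 < δ → Tendsto (fun x : ℝ =>
    ({d | d ∈ Fam x ∧ δ * Real.log (Real.log x)
      < |(nW (x ^ ((1 : ℝ) / 5)) d : ℝ) - Real.log (Real.log x)|}.ncard : ℝ)
      / (Fam x).ncard) atTop (𝓝 0)) ∧
  (∀ (d : ℕ) (t n : ℤ) (p : ℕ), p.Prime → UTN d t n → lucV t n p ≡ t [ZMOD (p : ℤ)]) ∧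
  (∀ (n : ℤ) (M : ℕ) (c : ℤ) (S : Finset ℕ) (a : ℕ → ℤ), (n = 1 ∨ n = -1) → 0 < M →
    (∀ p ∈ S, p.Prime ∧ ¬ p ^ 2 ∣ M) → Tendsto (fun x : ℝ =>
      ({d | d ∈ Fam x ∧ ∃ t : ℤ, UTN d t n ∧ t ≡ c [ZMOD (M : ℤ)] ∧
        ∀ p ∈ S, lucV t n p ≡ t + p * a p [ZMOD (p : ℤ) ^ 2]}.ncard : ℝ)
      / (Fam x).ncard) atTop (𝓝 (1 / (2 * M * ∏ p ∈ S, (p : ℝ)))))

/-! ### The field `ℚ(√5)` -/

theorem gold_root : Real.goldenRatio ^ 2 - (1 : ℤ) * Real.goldenRatio + (-1 : ℤ) = 0 := by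
  have := Real.goldenRatio_sq
  push_cast
  linarith

theorem gold_un : Real.goldenRatio ∈ Un 5 := by
  have h1 : IsIntegral ℤ Real.goldenRatio := by
    refine ⟨Polynomial.X ^ 2 + (Polynomial.C (-1) * Polynomial.X + Polynomial.C (-1)),
      Polynomial.monic_X_pow_add ?_, ?_⟩
    · exact lt_of_le_of_lt Polynomial.degree_linear_le (by norm_num)
    · simp only [Polynomial.eval₂_add, Polynomial.eval₂_mul, Polynomial.eval₂_pow,
        Polynomial.eval₂_X, Polynomial.eval₂_C]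
      simp only [algebraMap_int_eq, eq_intCast]
      have := Real.goldenRatio_sq
      push_cast
      linarith
  refine ⟨Real.one_lt_goldenRatio, ⟨1 / 2, 1 / 2, ?_⟩, h1, ?_⟩
  · unfold Real.goldenRatio
    push_cast
    ring
  · have h2 : Real.goldenRatio⁻¹ = Real.goldenRatio - 1 := by
      have h3 := Real.goldenRatio_sq
      apply inv_eq_of_mul_eq_one_right
      linarith
    rw [h2]
    exact h1.sub isIntegral_one

theorem sqf5 : Squarefree 5 := Nat.prime_five.squarefree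

theorem gold_fund : IsFund 5 Real.goldenRatio := by
  refine ⟨gold_un, fun y hy => ?_⟩
  obtain ⟨a, b, t, n, -, -, -, -, hadm, hroot⟩ := un_struct (by norm_num) sqf5 hy
  have hy1 : 1 < y := hy.1
  by_contra hlt
  push Not at hlt
  have hg := Real.goldenRatio_sq
  have hg1 := Real.one_lt_goldenRatio
  have h1 : y ^ 2 < y + 1 := by nlinarith
  rcases hadm with ⟨hn, ht⟩ | ⟨hn, ht⟩
  · rw [hn] at hroot
    push_cast at hroot
    have ht' : (3 : ℝ) ≤ t := by exact_mod_cast ht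
    nlinarith
  · rw [hn] at hroot
    push_cast at hroot
    have ht' : (1 : ℝ) ≤ t := by exact_mod_cast ht
    nlinarith

theorem utn5 : UTN 5 1 (-1) := ⟨Or.inr rfl, _, gold_fund, gold_root⟩

theorem utn_unique {d : ℕ} (hd : 1 < d) (hs : Squarefree d) {t n t' n' : ℤ} (h : UTN d t n)
    (h' : UTN d t' n') : t' = t ∧ n' = n := by
  obtain ⟨-, e, he, hr⟩ := h
  obtain ⟨-, e', he', hr'⟩ := h'
  have hee : e' = e := he'.unique he
  rw [hee] at hr'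
  exact un_unique hd hs he.1 hr hr'

theorem lucV_fib (m : ℕ) : lucV 1 (-1) (m + 1) = Nat.fib m + Nat.fib (m + 2) ∧
    lucV 1 (-1) (m + 2) = Nat.fib (m + 1) + Nat.fib (m + 3) := by
  induction m with
  | zero => constructor <;> simp [lucV, Nat.fib_add_two]
  | succ m ih =>
    refine ⟨ih.2, ?_⟩
    have e : lucV 1 (-1) (m + 1 + 2) = 1 * lucV 1 (-1) (m + 1 + 1) - (-1) * lucV 1 (-1) (m + 1) :=
      rfl
    rw [e, ih.1, show m + 1 + 1 = m + 2 from rfl, ih.2]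
    have h1 : (Nat.fib (m + 2) : ℤ) = Nat.fib m + Nat.fib (m + 1) := by
      rw [Nat.fib_add_two]; push_cast; ring
    have h2 : (Nat.fib (m + 3) : ℤ) = Nat.fib (m + 1) + Nat.fib (m + 2) := by
      rw [show m + 3 = (m + 1) + 2 from rfl, Nat.fib_add_two]; push_cast; ring
    have h3 : (Nat.fib (m + 4) : ℤ) = Nat.fib (m + 2) + Nat.fib (m + 3) := by
      rw [show m + 4 = (m + 2) + 2 from rfl, Nat.fib_add_two]; push_cast; ring
    push_cast
    linarith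

theorem top0 : ∀ p : ℕ, p.Prime →
    (WSS 5 p ↔ Nat.fib (p - 1) + Nat.fib (p + 1) ≡ 1 [MOD p ^ 2]) := by
  intro p hp
  obtain ⟨m, rfl⟩ : ∃ m, p = m + 1 := ⟨p - 1, by have := hp.pos; omega⟩
  have hV := (lucV_fib m).1
  have hcast : lucV 1 (-1) (m + 1) ≡ 1 [ZMOD ((m + 1 : ℕ) : ℤ) ^ 2] ↔
      Nat.fib (m + 1 - 1) + Nat.fib (m + 1 + 1) ≡ 1 [MOD (m + 1) ^ 2] := by
    rw [hV, ← Int.natCast_modEq_iff]
    simp
  rw [← hcast]
  constructor
  · rintro ⟨-, t, n, hu, h⟩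
    obtain ⟨h1, h2⟩ := utn_unique (by norm_num) sqf5 utn5 hu
    rw [h1, h2] at h
    exact h
  · intro h
    exact ⟨hp, 1, -1, utn5, h⟩

/-! ### The family -/

theorem fam_utn {x : ℝ} {d : ℕ} (hd : d ∈ Fam x) : ∃ t n : ℤ, UTN d t n := by
  obtain ⟨h1, h2, e, -, he⟩ := hd
  obtain ⟨a, b, t, n, -, -, -, -, hadm, hroot⟩ := un_struct h1 h2 he.1
  refine ⟨t, n, ?_, e, he, hroot⟩
  rcases hadm with ⟨h, -⟩ | ⟨h, -⟩
  · exact Or.inl h
  · exact Or.inr h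

theorem fam_mono {x y : ℝ} (h : x ≤ y) : Fam x ⊆ Fam y := by
  rintro d ⟨h1, h2, e, hex, he⟩
  exact ⟨h1, h2, e, hex.trans h, he⟩

theorem cnt_true (X : ℕ) : cnt X (fun _ => True) = X := by
  unfold cnt
  have : {t : ℤ | 1 ≤ t ∧ t ≤ X ∧ True} = ((Finset.Icc (1 : ℤ) X : Finset ℤ) : Set ℤ) := by
    ext t
    simp
  rw [this, Set.ncard_coe_finset]
  simp

theorem cnt_false (X : ℕ) (P : ℤ → Prop) (h : ∀ t, ¬ P t) : cnt X P = 0 := by
  unfold cnt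
  have : {t : ℤ | 1 ≤ t ∧ t ≤ X ∧ P t} = ∅ := by
    ext t
    simp [h t]
  rw [this, Set.ncard_empty]

theorem cnt_mono (X : ℕ) {P Q : ℤ → Prop} (h : ∀ t : ℤ, 1 ≤ t → t ≤ X → P t → Q t) :
    cnt X P ≤ cnt X Q := by
  unfold cnt
  refine Set.ncard_le_ncard ?_ ?_
  · rintro t ⟨h1, h2, h3⟩
    exact ⟨h1, h2, h t h1 h2 h3⟩
  · exact (Set.finite_Icc (1 : ℤ) X).subset fun t ht => ⟨ht.1, ht.2.1⟩

theorem fam_all (x : ℝ) : {d | d ∈ Fam x ∧ ∃ t n : ℤ, UTN d t n ∧ True} = Fam x := by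
  ext d
  constructor
  · exact fun h => h.1
  · intro h
    obtain ⟨t, n, hu⟩ := fam_utn h
    exact ⟨h, t, n, hu, trivial⟩

theorem top1 (hTRF : StTRF) : ∃ C : ℝ, 0 < C ∧ ∀ x : ℝ, 1 ≤ x →
    |((Fam x).ncard : ℝ) - 2 * x| ≤ C * Real.sqrt x := by
  obtain ⟨C, hC, H⟩ := hTRF
  refine ⟨C + 2, by linarith, fun x hx => ?_⟩
  have h := H x (fun _ _ => True) hx
  rw [fam_all, cnt_true] at h
  have h1 : (⌊x⌋₊ : ℝ) ≤ x := Nat.floor_le (by linarith)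
  have h2 : x < ⌊x⌋₊ + 1 := Nat.lt_floor_add_one x
  have h3 : 1 ≤ Real.sqrt x := Real.one_le_sqrt.2 hx
  rw [abs_le] at h ⊢
  constructor <;> nlinarith [h.1, h.2]

theorem fam_finite (hTRF : StTRF) (x : ℝ) : (Fam x).Finite := by
  obtain ⟨C, hC, H⟩ := top1 hTRF
  set y : ℝ := max x ((C + 1) ^ 2) with hy
  have hy1 : (C + 1) ^ 2 ≤ y := le_max_right _ _
  have hy0 : 1 ≤ y := by nlinarith
  refine Set.Finite.subset ?_ (fam_mono (le_max_left x ((C + 1) ^ 2)))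
  rw [← hy]
  apply Set.finite_of_ncard_pos
  have h1 := H y hy0
  have h2 : C + 1 ≤ Real.sqrt y := Real.le_sqrt_of_sq_le hy1
  have h3 : Real.sqrt y * Real.sqrt y = y := Real.mul_self_sqrt (by linarith)
  rw [abs_le] at h1
  have h4 : (0 : ℝ) < (Fam y).ncard := by nlinarith [h1.1]
  exact_mod_cast h4

theorem wss_iff {x : ℝ} {d : ℕ} (hd : d ∈ Fam x) {t n : ℤ} (hu : UTN d t n) (p : ℕ) :
    WSS d p ↔ p.Prime ∧ lucV t n p ≡ t [ZMOD (p : ℤ) ^ 2] := by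
  constructor
  · rintro ⟨hp, t', n', hu', h⟩
    obtain ⟨h1, h2⟩ := utn_unique hd.1 hd.2.1 hu hu'
    rw [h1, h2] at h
    exact ⟨hp, h⟩
  · rintro ⟨hp, h⟩
    exact ⟨hp, t, n, hu, h⟩

theorem floor_div_log {x : ℝ} (hx : 2 ≤ x) :
    (⌊x⌋₊ : ℝ) / Real.log ⌊x⌋₊ ≤ 2 * (x / Real.log x) := by
  have h1 : (⌊x⌋₊ : ℝ) ≤ x := Nat.floor_le (by linarith)
  have h2 : x < ⌊x⌋₊ + 1 := Nat.lt_floor_add_one x
  have h3 : (2 : ℝ) ≤ ⌊x⌋₊ := by exact_mod_cast Nat.le_floor (by exact_mod_cast hx)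
  have h4 : x ≤ (⌊x⌋₊ : ℝ) ^ 2 := by nlinarith
  have h5 : Real.log x ≤ 2 * Real.log ⌊x⌋₊ := by
    have := Real.log_le_log (by linarith) h4
    rwa [Real.log_pow] at this
  have h6 : 0 < Real.log x := Real.log_pos (by linarith)
  have h7 : 0 < Real.log (⌊x⌋₊ : ℝ) := Real.log_pos (by linarith)
  rw [← mul_div_assoc, div_le_div_iff₀ h7 h6]
  nlinarith

theorem sqrt_le_div_log {x : ℝ} (hx : 2 ≤ x) : Real.sqrt x ≤ 2 * (x / Real.log x) := by
  have h6 : 0 < Real.log x := Real.log_pos (by linarith)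
  have h1 : Real.log x ≤ 2 * Real.sqrt x := by
    have h2 := Real.log_le_sub_one_of_pos (x := Real.sqrt x) (by positivity)
    rw [Real.log_sqrt (by linarith)] at h2
    linarith
  have h3 : Real.sqrt x * Real.sqrt x = x := Real.mul_self_sqrt (by linarith)
  rw [← mul_div_assoc, le_div_iff₀ h6]
  nlinarith [Real.sqrt_nonneg x]

theorem top2 (hTRF : StTRF) (hSIE : StSIE) : ∃ C : ℝ, ∀ x : ℝ, 2 ≤ x →
    ({d | d ∈ Fam x ∧ ∀ p, ¬ WSS d p}.ncard : ℝ) ≤ C * (x / Real.log x) := by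
  obtain ⟨C, hC, H⟩ := hTRF
  obtain ⟨C', hC', H'⟩ := hSIE
  refine ⟨2 * C + 4 * C', fun x hx => ?_⟩
  have h := H x (fun t n => ∀ p : ℕ, p.Prime → ¬ lucV t n p ≡ t [ZMOD (p : ℤ) ^ 2])
    (by linarith)
  have hset : {d | d ∈ Fam x ∧ ∀ p, ¬ WSS d p} = {d | d ∈ Fam x ∧ ∃ t n : ℤ, UTN d t n ∧
      ∀ p : ℕ, p.Prime → ¬ lucV t n p ≡ t [ZMOD (p : ℤ) ^ 2]} := by
    ext d
    constructor
    · rintro ⟨hd, hw⟩
      obtain ⟨t, n, hu⟩ := fam_utn hd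
      refine ⟨hd, t, n, hu, fun p hp hc => hw p ?_⟩
      exact (wss_iff hd hu p).2 ⟨hp, hc⟩
    · rintro ⟨hd, t, n, hu, hw⟩
      refine ⟨hd, fun p hc => ?_⟩
      obtain ⟨hp, hc'⟩ := (wss_iff hd hu p).1 hc
      exact hw p hp hc'
  rw [hset]
  have h2 : 2 ≤ ⌊x⌋₊ := Nat.le_floor (by exact_mod_cast hx)
  have a1 := H' 1 ⌊x⌋₊ h2
  have a2 := H' (-1) ⌊x⌋₊ h2
  have a3 := floor_div_log hx
  have a4 := sqrt_le_div_log hx
  have h3 := (abs_le.1 h).2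
  have a5 : C' * ((⌊x⌋₊ : ℝ) / Real.log ⌊x⌋₊) ≤ C' * (2 * (x / Real.log x)) := by gcongr
  have a6 : C * Real.sqrt x ≤ C * (2 * (x / Real.log x)) := by gcongr
  linarith

theorem fam_ratio (hTRF : StTRF) : Tendsto (fun x : ℝ => ((Fam x).ncard : ℝ) / x) atTop (𝓝 2) := by
  obtain ⟨C, hC, H⟩ := top1 hTRF
  rw [tendsto_iff_norm_sub_tendsto_zero]
  have h0 : Tendsto (fun x : ℝ => C / Real.sqrt x) atTop (𝓝 0) :=
    tendsto_const_nhds.div_atTop Real.tendsto_sqrt_atTop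
  refine squeeze_zero' (Eventually.of_forall fun _ => norm_nonneg _) ?_ h0
  filter_upwards [eventually_ge_atTop (1 : ℝ)] with x hx
  have h1 := H x hx
  have hx0 : 0 < x := by linarith
  have hs : 0 < Real.sqrt x := Real.sqrt_pos.2 hx0
  rw [Real.norm_eq_abs, show ((Fam x).ncard : ℝ) / x - 2 = (((Fam x).ncard : ℝ) - 2 * x) / x by
    field_simp, abs_div, abs_of_pos hx0, div_le_div_iff₀ hx0 hs]
  have h3 : Real.sqrt x * Real.sqrt x = x := Real.mul_self_sqrt hx0.le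
  calc |((Fam x).ncard : ℝ) - 2 * x| * Real.sqrt x ≤ C * Real.sqrt x * Real.sqrt x := by gcongr
    _ = C * x := by rw [mul_assoc, h3]

/-- from counts divided by `x` to proportions in the family -/
theorem to_ratio (hTRF : StTRF) {f : ℝ → ℝ} {l : ℝ}
    (h : Tendsto (fun x : ℝ => f x / x) atTop (𝓝 l)) :
    Tendsto (fun x : ℝ => f x / (Fam x).ncard) atTop (𝓝 (l / 2)) := by
  have h1 := h.div (fam_ratio hTRF) (by norm_num)
  refine h1.congr' ?_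
  filter_upwards [eventually_gt_atTop (0 : ℝ)] with x hx
  simp only [Pi.div_apply]
  field_simp

theorem floor_ratio : Tendsto (fun x : ℝ => (⌊x⌋₊ : ℝ) / x) atTop (𝓝 1) :=
  tendsto_nat_floor_div_atTop

theorem sqrt_ratio (C : ℝ) : Tendsto (fun x : ℝ => C * Real.sqrt x / x) atTop (𝓝 0) := by
  have h0 : Tendsto (fun x : ℝ => C / Real.sqrt x) atTop (𝓝 0) :=
    tendsto_const_nhds.div_atTop Real.tendsto_sqrt_atTop
  refine h0.congr' ?_
  filter_upwards [eventually_gt_atTop (0 : ℝ)] with x hx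
  have hs : 0 < Real.sqrt x := Real.sqrt_pos.2 hx
  have h3 : Real.sqrt x * Real.sqrt x = x := Real.mul_self_sqrt hx.le
  rw [div_eq_div_iff hs.ne' hx.ne', mul_assoc, h3]

theorem top4 (hTRF : StTRF) (hCNT : StCNT) :
    ∀ (n : ℤ) (M : ℕ) (c : ℤ) (S : Finset ℕ) (a : ℕ → ℤ), (n = 1 ∨ n = -1) → 0 < M →
    (∀ p ∈ S, p.Prime ∧ ¬ p ^ 2 ∣ M) → Tendsto (fun x : ℝ =>
      ({d | d ∈ Fam x ∧ ∃ t : ℤ, UTN d t n ∧ t ≡ c [ZMOD (M : ℤ)] ∧
        ∀ p ∈ S, lucV t n p ≡ t + p * a p [ZMOD (p : ℤ) ^ 2]}.ncard : ℝ)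
      / (Fam x).ncard) atTop (𝓝 (1 / (2 * M * ∏ p ∈ S, (p : ℝ)))) := by
  intro n M c S a hn hM hS
  have hTRF' := hTRF
  obtain ⟨C, hC, H⟩ := hTRF'
  set D : ℝ := M * ∏ p ∈ S, (p : ℝ) with hD
  have hPpos : 0 < ∏ p ∈ S, (p : ℝ) := Finset.prod_pos fun p hp => by
    have := (hS p hp).1.pos
    exact_mod_cast this
  have hDpos : 0 < D := by
    have : (0 : ℝ) < M := by exact_mod_cast hM
    positivity
  set P : ℤ → ℤ → Prop := fun t n' => n' = n ∧ t ≡ c [ZMOD (M : ℤ)] ∧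
    ∀ p ∈ S, lucV t n' p ≡ t + p * a p [ZMOD (p : ℤ) ^ 2] with hP
  have hset : ∀ x : ℝ, {d | d ∈ Fam x ∧ ∃ t : ℤ, UTN d t n ∧ t ≡ c [ZMOD (M : ℤ)] ∧
        ∀ p ∈ S, lucV t n p ≡ t + p * a p [ZMOD (p : ℤ) ^ 2]}
      = {d | d ∈ Fam x ∧ ∃ t n' : ℤ, UTN d t n' ∧ P t n'} := by
    intro x
    ext d
    constructor
    · rintro ⟨hd, t, hu, h1, h2⟩
      exact ⟨hd, t, n, hu, rfl, h1, h2⟩
    · rintro ⟨hd, t, n', hu, rfl, h1, h2⟩
      exact ⟨hd, t, hu, h1, h2⟩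
  have hcnt : ∀ X : ℕ, |((cnt X (fun t => P t 1) : ℝ) + cnt X (fun t => P t (-1))) - X / D|
      ≤ ∏ p ∈ S, (p : ℝ) := by
    intro X
    have hc := hCNT n S M c a X hM hS
    rw [← hD] at hc
    rcases hn with rfl | rfl
    · have h1 : cnt X (fun t => P t (-1)) = 0 := cnt_false _ _ (fun t h => by
        have := h.1
        norm_num at this)
      have h2 : (fun t => P t 1) = (fun t => t ≡ c [ZMOD (M : ℤ)] ∧
          ∀ p ∈ S, lucV t 1 p ≡ t + p * a p [ZMOD (p : ℤ) ^ 2]) := by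
        funext t
        simp [hP]
      rw [h1, h2]
      simpa using hc
    · have h1 : cnt X (fun t => P t 1) = 0 := cnt_false _ _ (fun t h => by
        have := h.1
        norm_num at this)
      have h2 : (fun t => P t (-1)) = (fun t => t ≡ c [ZMOD (M : ℤ)] ∧
          ∀ p ∈ S, lucV t (-1) p ≡ t + p * a p [ZMOD (p : ℤ) ^ 2]) := by
        funext t
        simp [hP]
      rw [h1, h2]
      simpa using hc
  have hlim : Tendsto (fun x : ℝ => ({d | d ∈ Fam x ∧ ∃ t : ℤ, UTN d t n ∧ t ≡ c [ZMOD (M : ℤ)] ∧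
        ∀ p ∈ S, lucV t n p ≡ t + p * a p [ZMOD (p : ℤ) ^ 2]}.ncard : ℝ) / x) atTop
        (𝓝 (1 / D)) := by
    have hmain : Tendsto (fun x : ℝ => (⌊x⌋₊ : ℝ) / x * (1 / D)) atTop (𝓝 (1 * (1 / D))) :=
      floor_ratio.mul_const _
    rw [one_mul] at hmain
    have herr : Tendsto (fun x : ℝ => C * Real.sqrt x / x + (∏ p ∈ S, (p : ℝ)) / x) atTop
        (𝓝 0) := by
      have := (sqrt_ratio C).add
        ((tendsto_const_nhds (x := ∏ p ∈ S, (p : ℝ))).div_atTop tendsto_id)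
      simpa using this
    have hdiff : Tendsto (fun x : ℝ => ({d | d ∈ Fam x ∧ ∃ t : ℤ, UTN d t n ∧
        t ≡ c [ZMOD (M : ℤ)] ∧
        ∀ p ∈ S, lucV t n p ≡ t + p * a p [ZMOD (p : ℤ) ^ 2]}.ncard : ℝ) / x
        - (⌊x⌋₊ : ℝ) / x * (1 / D)) atTop (𝓝 0) := by
      rw [tendsto_zero_iff_norm_tendsto_zero]
      refine squeeze_zero' (Eventually.of_forall fun _ => norm_nonneg _) ?_ herr
      filter_upwards [eventually_ge_atTop (1 : ℝ)] with x hx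
      have hx0 : 0 < x := by linarith
      have h1 := H x P hx
      have h2 := hcnt ⌊x⌋₊
      rw [hset x, Real.norm_eq_abs]
      have h3 : ({d | d ∈ Fam x ∧ ∃ t n' : ℤ, UTN d t n' ∧ P t n'}.ncard : ℝ) / x
          - (⌊x⌋₊ : ℝ) / x * (1 / D)
          = (({d | d ∈ Fam x ∧ ∃ t n' : ℤ, UTN d t n' ∧ P t n'}.ncard : ℝ)
            - (⌊x⌋₊ : ℝ) / D) / x := by
        field_simp
      rw [h3, abs_div, abs_of_pos hx0, ← add_div]
      gcongr
      calc |({d | d ∈ Fam x ∧ ∃ t n' : ℤ, UTN d t n' ∧ P t n'}.ncard : ℝ) - (⌊x⌋₊ : ℝ) / D|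
          = |(({d | d ∈ Fam x ∧ ∃ t n' : ℤ, UTN d t n' ∧ P t n'}.ncard : ℝ)
              - ((cnt ⌊x⌋₊ (fun t => P t 1) : ℝ) + cnt ⌊x⌋₊ (fun t => P t (-1))))
            + (((cnt ⌊x⌋₊ (fun t => P t 1) : ℝ) + cnt ⌊x⌋₊ (fun t => P t (-1)))
              - (⌊x⌋₊ : ℝ) / D)| := by
            congr 1; ring
        _ ≤ _ := (abs_add_le _ _).trans (add_le_add h1 h2)
    have := hdiff.add hmain
    rw [zero_add] at this
    refine this.congr fun x => ?_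
    ring
  have := to_ratio hTRF hlim
  have e : 1 / D / 2 = 1 / (2 * M * ∏ p ∈ S, (p : ℝ)) := by
    rw [hD]
    field_simp
  rwa [e] at this

/-! ### The normal order -/

theorem nW_eq {x y : ℝ} {d : ℕ} (hd : d ∈ Fam x) {t n : ℤ} (hu : UTN d t n) :
    nW y d = om y t n := by
  unfold nW om
  congr 1
  ext p
  constructor
  · rintro ⟨h1, h2⟩
    obtain ⟨h3, h4⟩ := (wss_iff hd hu p).1 h2
    exact ⟨h3, h1, h4⟩
  · rintro ⟨h1, h2, h3⟩
    exact ⟨h2, (wss_iff hd hu p).2 ⟨h1, h3⟩⟩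

theorem om_fin (y : ℝ) (t n : ℤ) :
    {p : ℕ | p.Prime ∧ (p : ℝ) ≤ y ∧ lucV t n p ≡ t [ZMOD (p : ℤ) ^ 2]}.Finite := by
  refine (Set.finite_Iic ⌊y⌋₊).subset ?_
  rintro p ⟨h1, h2, -⟩
  rw [Set.mem_Iic]
  exact Nat.le_floor h2

/-- `om` changes by at most one if the bound changes by less than one -/
theorem om_near {y z : ℝ} (hyz : y ≤ z) (hzy : z < y + 1) (t n : ℤ) :
    om y t n ≤ om z t n ∧ om z t n ≤ om y t n + 1 := by
  constructor
  · unfold om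
    refine Set.ncard_le_ncard ?_ (om_fin z t n)
    rintro p ⟨h1, h2, h3⟩
    exact ⟨h1, h2.trans hyz, h3⟩
  · unfold om
    have hsub : {p : ℕ | p.Prime ∧ (p : ℝ) ≤ z ∧ lucV t n p ≡ t [ZMOD (p : ℤ) ^ 2]} ⊆
        insert ⌊z⌋₊ {p : ℕ | p.Prime ∧ (p : ℝ) ≤ y ∧ lucV t n p ≡ t [ZMOD (p : ℤ) ^ 2]} := by
      rintro p ⟨h1, h2, h3⟩
      by_cases hp : (p : ℝ) ≤ y
      · exact Or.inr ⟨h1, hp, h3⟩
      · left
        push Not at hp
        symm
        rw [Nat.floor_eq_iff ((Nat.cast_nonneg p).trans h2)]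
        exact ⟨h2, by linarith⟩
    refine (Set.ncard_le_ncard hsub ((om_fin y t n).insert _)).trans ?_
    exact Set.ncard_insert_le _ _

theorem loglog_near {x : ℝ} (hx : 3 ≤ x) :
    Real.log (Real.log ⌊x⌋₊) ≤ Real.log (Real.log x) ∧
    Real.log (Real.log x) ≤ Real.log (Real.log ⌊x⌋₊) + 1 := by
  have h1 : (⌊x⌋₊ : ℝ) ≤ x := Nat.floor_le (by linarith)
  have h2 : x < ⌊x⌋₊ + 1 := Nat.lt_floor_add_one x
  have h3 : (3 : ℝ) ≤ ⌊x⌋₊ := by exact_mod_cast Nat.le_floor (by exact_mod_cast hx)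
  have h4 : 0 < Real.log (⌊x⌋₊ : ℝ) := Real.log_pos (by linarith)
  have h5 : Real.log (⌊x⌋₊ : ℝ) ≤ Real.log x := Real.log_le_log (by linarith) h1
  have h6 : Real.log x ≤ 2 * Real.log ⌊x⌋₊ := by
    have := Real.log_le_log (by linarith) (show x ≤ (⌊x⌋₊ : ℝ) ^ 2 by nlinarith)
    rwa [Real.log_pow] at this
  refine ⟨Real.log_le_log h4 h5, ?_⟩
  have h7 := Real.log_le_log (by linarith) h6
  rw [Real.log_mul (by norm_num) h4.ne'] at h7
  have h8 : Real.log 2 ≤ 1 := by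
    have := Real.log_le_sub_one_of_pos (x := 2) (by norm_num)
    linarith
  linarith

theorem rpow_near {x : ℝ} (hx : 3 ≤ x) :
    (⌊x⌋₊ : ℝ) ^ ((1 : ℝ) / 5) ≤ x ^ ((1 : ℝ) / 5) ∧
    x ^ ((1 : ℝ) / 5) < (⌊x⌋₊ : ℝ) ^ ((1 : ℝ) / 5) + 1 := by
  have h1 : (⌊x⌋₊ : ℝ) ≤ x := Nat.floor_le (by linarith)
  have h2 : x < ⌊x⌋₊ + 1 := Nat.lt_floor_add_one x
  have h3 : (0 : ℝ) ≤ ⌊x⌋₊ := Nat.cast_nonneg _
  refine ⟨Real.rpow_le_rpow h3 h1 (by norm_num), ?_⟩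
  have h4 : x ^ ((1 : ℝ) / 5) < ((⌊x⌋₊ : ℝ) + 1) ^ ((1 : ℝ) / 5) :=
    Real.rpow_lt_rpow (by linarith) h2 (by norm_num)
  have h5 := Real.rpow_add_le_add_rpow (p := (1 : ℝ) / 5) h3 zero_le_one (by norm_num)
    (by norm_num)
  rw [Real.one_rpow] at h5
  linarith

theorem top3 (hTRF : StTRF) (hTUR : StTUR) : ∀ δ : ℝ, 0 < δ → Tendsto (fun x : ℝ =>
    ({d | d ∈ Fam x ∧ δ * Real.log (Real.log x)
      < |(nW (x ^ ((1 : ℝ) / 5)) d : ℝ) - Real.log (Real.log x)|}.ncard : ℝ)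
      / (Fam x).ncard) atTop (𝓝 0) := by
  intro δ hδ
  have hTRF' := hTRF
  obtain ⟨C, hC, H⟩ := hTRF'
  obtain ⟨C', hC', H'⟩ := hTUR
  have hll : Tendsto (fun x : ℝ => Real.log (Real.log x)) atTop atTop :=
    Real.tendsto_log_atTop.comp Real.tendsto_log_atTop
  -- the count of traces
  have hcount : ∀ n : ℤ, ∀ᶠ x : ℝ in atTop,
      (cnt ⌊x⌋₊ (fun t => δ * Real.log (Real.log x)
        < |(om (x ^ ((1 : ℝ) / 5)) t n : ℝ) - Real.log (Real.log x)|) : ℝ)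
      ≤ 4 * C' / δ ^ 2 * (x / (Real.log (Real.log x) - 1)) := by
    intro n
    filter_upwards [eventually_ge_atTop (16 : ℝ), hll.eventually_ge_atTop (4 / δ + 2)]
      with x hx hl
    set X := ⌊x⌋₊ with hX
    have hX16 : 16 ≤ X := Nat.le_floor (by exact_mod_cast hx)
    have hXx : (X : ℝ) ≤ x := Nat.floor_le (by linarith)
    obtain ⟨l1, l2⟩ := loglog_near (x := x) (by linarith)
    obtain ⟨r1, r2⟩ := rpow_near (x := x) (by linarith)
    rw [← hX] at l1 l2 r1 r2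
    set ℓ := Real.log (Real.log x) with hℓ
    set L := Real.log (Real.log (X : ℝ)) with hL
    have hδ4 : 4 / δ > 0 := by positivity
    have hLpos : 0 < L := by linarith
    have hLδ : 4 ≤ δ * L := by
      have : 4 / δ ≤ L := by linarith
      calc (4 : ℝ) = δ * (4 / δ) := by field_simp
        _ ≤ δ * L := by gcongr
    have ht := H' n X hX16
    rw [← hL] at ht
    set Bad : Finset ℤ := (Finset.Icc (1 : ℤ) X).filter (fun t =>
      δ * ℓ < |(om (x ^ ((1 : ℝ) / 5)) t n : ℝ) - ℓ|) with hBad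
    have hc : cnt X (fun t => δ * ℓ < |(om (x ^ ((1 : ℝ) / 5)) t n : ℝ) - ℓ|) = Bad.card := by
      unfold cnt
      rw [← Set.ncard_coe_finset]
      congr 1
      ext t
      simp [hBad, and_assoc]
    rw [hc]
    have hsum : (Bad.card : ℝ) * (δ * L / 2) ^ 2 ≤ C' * (X * L) := by
      refine le_trans ?_ ht
      calc (Bad.card : ℝ) * (δ * L / 2) ^ 2 = ∑ _t ∈ Bad, (δ * L / 2) ^ 2 := by
            rw [Finset.sum_const, nsmul_eq_mul]
        _ ≤ ∑ t ∈ Bad, ((om ((X : ℝ) ^ ((1 : ℝ) / 5)) t n : ℝ) - L) ^ 2 := by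
            refine Finset.sum_le_sum fun t htB => ?_
            rw [hBad, Finset.mem_filter] at htB
            have h1 := htB.2
            obtain ⟨o1, o2⟩ := om_near r1 r2 t n
            have o1' : (om ((X : ℝ) ^ ((1 : ℝ) / 5)) t n : ℝ) ≤ om (x ^ ((1 : ℝ) / 5)) t n := by
              exact_mod_cast o1
            have o2' : (om (x ^ ((1 : ℝ) / 5)) t n : ℝ) ≤ om ((X : ℝ) ^ ((1 : ℝ) / 5)) t n + 1 := by
              exact_mod_cast o2
            have h2 : δ * L ≤ δ * ℓ := by gcongr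
            have h3 : δ * L / 2 ≤ |(om ((X : ℝ) ^ ((1 : ℝ) / 5)) t n : ℝ) - L| := by
              have h4 : |(om (x ^ ((1 : ℝ) / 5)) t n : ℝ) - ℓ|
                  ≤ |(om ((X : ℝ) ^ ((1 : ℝ) / 5)) t n : ℝ) - L| + 2 := by
                rw [abs_le]
                have h5 := neg_abs_le ((om ((X : ℝ) ^ ((1 : ℝ) / 5)) t n : ℝ) - L)
                have h6 := le_abs_self ((om ((X : ℝ) ^ ((1 : ℝ) / 5)) t n : ℝ) - L)
                constructor <;> linarith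
              linarith
            rw [← sq_abs ((om ((X : ℝ) ^ ((1 : ℝ) / 5)) t n : ℝ) - L)]
            have h7 : 0 ≤ δ * L / 2 := by positivity
            gcongr
        _ ≤ ∑ t ∈ Finset.Icc (1 : ℤ) X, ((om ((X : ℝ) ^ ((1 : ℝ) / 5)) t n : ℝ) - L) ^ 2 := by
            refine Finset.sum_le_sum_of_subset_of_nonneg (Finset.filter_subset _ _) ?_
            intros
            positivity
    have h8 : (Bad.card : ℝ) * (δ ^ 2 * L) ≤ 4 * C' * x := by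
      have h9 : (Bad.card : ℝ) * (δ ^ 2 * L) * L ≤ 4 * C' * X * L := by nlinarith
      have h10 := le_of_mul_le_mul_right h9 hLpos
      nlinarith
    have h11 : 0 < ℓ - 1 := by linarith
    have h12 : ℓ - 1 ≤ L := by linarith
    calc (Bad.card : ℝ) = (Bad.card : ℝ) * (δ ^ 2 * (ℓ - 1)) / (δ ^ 2 * (ℓ - 1)) := by
          field_simp
      _ ≤ (Bad.card : ℝ) * (δ ^ 2 * L) / (δ ^ 2 * (ℓ - 1)) := by gcongr
      _ ≤ 4 * C' * x / (δ ^ 2 * (ℓ - 1)) := by gcongr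
      _ = 4 * C' / δ ^ 2 * (x / (ℓ - 1)) := by field_simp
  -- the limit divided by `x`
  have hlim : Tendsto (fun x : ℝ => ({d | d ∈ Fam x ∧ δ * Real.log (Real.log x)
      < |(nW (x ^ ((1 : ℝ) / 5)) d : ℝ) - Real.log (Real.log x)|}.ncard : ℝ) / x) atTop
      (𝓝 0) := by
    have hb : Tendsto (fun x : ℝ => 2 * (4 * C' / δ ^ 2) / (Real.log (Real.log x) - 1)
        + C * Real.sqrt x / x) atTop (𝓝 0) := by
      have h1 : Tendsto (fun x : ℝ => Real.log (Real.log x) - 1) atTop atTop :=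
        tendsto_atTop_add_const_right _ _ hll
      have h2 := ((tendsto_const_nhds (x := 2 * (4 * C' / δ ^ 2))).div_atTop h1).add
        (sqrt_ratio C)
      simpa using h2
    refine squeeze_zero' ?_ ?_ hb
    · filter_upwards [eventually_ge_atTop (0 : ℝ)] with x hx
      positivity
    · filter_upwards [hcount 1, hcount (-1), eventually_ge_atTop (16 : ℝ),
        hll.eventually_ge_atTop 2] with x h1 h2 hx hl
      have hx0 : 0 < x := by linarith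
      have h3 := H x (fun t n => δ * Real.log (Real.log x)
        < |(om (x ^ ((1 : ℝ) / 5)) t n : ℝ) - Real.log (Real.log x)|) (by linarith)
      have hset : {d | d ∈ Fam x ∧ δ * Real.log (Real.log x)
          < |(nW (x ^ ((1 : ℝ) / 5)) d : ℝ) - Real.log (Real.log x)|}
          = {d | d ∈ Fam x ∧ ∃ t n : ℤ, UTN d t n ∧ δ * Real.log (Real.log x)
          < |(om (x ^ ((1 : ℝ) / 5)) t n : ℝ) - Real.log (Real.log x)|} := by
        ext d
        constructor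
        · rintro ⟨hd, h⟩
          obtain ⟨t, n, hu⟩ := fam_utn hd
          rw [nW_eq hd hu] at h
          exact ⟨hd, t, n, hu, h⟩
        · rintro ⟨hd, t, n, hu, h⟩
          refine ⟨hd, ?_⟩
          rw [nW_eq hd hu]
          exact h
      rw [hset, div_le_iff₀ hx0]
      have h4 := (abs_le.1 h3).2
      have h5 : 0 < Real.log (Real.log x) - 1 := by linarith
      have h6 : (2 * (4 * C' / δ ^ 2) / (Real.log (Real.log x) - 1) + C * Real.sqrt x / x) * x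
          = 2 * (4 * C' / δ ^ 2 * (x / (Real.log (Real.log x) - 1))) + C * Real.sqrt x := by
        field_simp
      rw [h6]
      linarith
  have := to_ratio hTRF hlim
  rwa [zero_div] at this

theorem hTOP (hTRF : StTRF) (hLIF : StLIF) (hCNT : StCNT) (hSIE : StSIE) (hTUR : StTUR) :
    StTOP :=
  ⟨top0, ⟨fam_finite hTRF, (top1 hTRF).imp fun _ h => h.2⟩, top2 hTRF hSIE, top3 hTRF hTUR,
    fun _ t n p hp _ => (hLIF n p hp).1 t, top4 hTRF hCNT⟩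

end Pool.Agent.Helper69.WS
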